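import Pool.Agent.Helper49_Pauli.Interface

/-!
# An algebra of bounded smooth functions on `R^3` stable under derivatives

`J x = (1 + |x|^2)^(-1/2)`, `X j x = x_j * J x`; the algebra `Alg` generated by these functions
is stable under partial derivatives and consists of bounded functions.
-/

open MeasureTheory Complex

namespace Pool.Agent.Helper29_Pauli

open Pool.Agent.Helper49_Pauli

noncomputable def J (x : X3) : ℝ := (Real.sqrt (1 + Helper49_Pauli.sq x))⁻¹

noncomputable def X (j : Fin 3) (x : X3) : ℝ := x j * J x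

/-- partial derivative -/
noncomputable def dd (i : Fin 3) (f : X3 → ℂ) (x : X3) : ℂ := fderiv ℝ f x (Pi.single i 1)

theorem sq_nonneg' (x : X3) : 0 ≤ Helper49_Pauli.sq x := Finset.sum_nonneg fun j _ => sq_nonneg (x j)

theorem one_add_sq_pos (x : X3) : 0 < 1 + Helper49_Pauli.sq x := by have := sq_nonneg' x; linarith

theorem J_pos (x : X3) : 0 < J x := inv_pos.mpr (Real.sqrt_pos.mpr (one_add_sq_pos x))

theorem J_sq (x : X3) : J x ^ 2 = (1 + Helper49_Pauli.sq x)⁻¹ := by
  rw [J, inv_pow, Real.sq_sqrt (one_add_sq_pos x).le]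

theorem J_sq_mul (x : X3) : J x ^ 2 * (1 + Helper49_Pauli.sq x) = 1 := by
  rw [J_sq, inv_mul_cancel₀ (one_add_sq_pos x).ne']

theorem sq_eq (x : X3) : Helper49_Pauli.sq x = x 0 ^ 2 + x 1 ^ 2 + x 2 ^ 2 := by
  simp [Helper49_Pauli.sq, Fin.sum_univ_three]

theorem JX_id (x : X3) : J x ^ 2 + X 0 x ^ 2 + X 1 x ^ 2 + X 2 x ^ 2 = 1 := by
  have := J_sq_mul x
  rw [sq_eq] at this
  simp only [X]
  linear_combination this

theorem J_le_one (x : X3) : J x ≤ 1 := by
  have h := JX_id x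
  have := J_pos x
  nlinarith [sq_nonneg (X 0 x), sq_nonneg (X 1 x), sq_nonneg (X 2 x)]

theorem abs_X_le (j : Fin 3) (x : X3) : |X j x| ≤ 1 := by
  have h := JX_id x
  rw [← sq_le_one_iff_abs_le_one]
  have h0 := sq_nonneg (X 0 x)
  have h1 := sq_nonneg (X 1 x)
  have h2 := sq_nonneg (X 2 x)
  have h3 := sq_nonneg (J x)
  match j with
  | 0 => linarith
  | 1 => linarith
  | 2 => linarith

theorem contDiff_sq : ContDiff ℝ (⊤ : ℕ∞) Helper49_Pauli.sq := by
  unfold Helper49_Pauli.sq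
  fun_prop

theorem contDiff_J : ContDiff ℝ (⊤ : ℕ∞) J := by
  unfold J
  apply ContDiff.inv
  · apply ContDiff.sqrt
    · exact contDiff_const.add contDiff_sq
    · intro x; exact (one_add_sq_pos x).ne'
  · intro x; exact (Real.sqrt_pos.mpr (one_add_sq_pos x)).ne'

theorem contDiff_X (j : Fin 3) : ContDiff ℝ (⊤ : ℕ∞) (X j) := by
  unfold X
  exact (contDiff_apply ℝ ℝ j).mul contDiff_J

theorem hasFDerivAt_sq (x : X3) :
    ∃ L : X3 →L[ℝ] ℝ, HasFDerivAt Helper49_Pauli.sq L x ∧ ∀ i, L (Pi.single i 1) = 2 * x i := by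
  have h1 : ∀ j : Fin 3, HasFDerivAt (fun y : X3 => y j ^ 2)
      ((2 * x j) • (ContinuousLinearMap.proj (R := ℝ) (φ := fun _ : Fin 3 => ℝ) j)) x := by
    intro j
    have := (hasFDerivAt_apply (𝕜 := ℝ) j x).pow 2
    exact this.congr_fderiv (by ext v; simp)
  refine ⟨∑ j, (2 * x j) • (ContinuousLinearMap.proj (R := ℝ) (φ := fun _ : Fin 3 => ℝ) j), ?_, ?_⟩
  · exact HasFDerivAt.fun_sum (u := (Finset.univ : Finset (Fin 3))) (fun j _ => h1 j)
  · intro i
    simp [Pi.single_apply]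

theorem hasFDerivAt_J (x : X3) :
    ∃ L : X3 →L[ℝ] ℝ, HasFDerivAt J L x ∧ ∀ i, L (Pi.single i 1) = -(X i x * J x ^ 2) := by
  obtain ⟨L, hL, hL'⟩ := hasFDerivAt_sq x
  have h1 : HasDerivAt (fun t : ℝ => (Real.sqrt (1 + t))⁻¹)
      (-(1 / (2 * Real.sqrt (1 + Helper49_Pauli.sq x))) / (Real.sqrt (1 + Helper49_Pauli.sq x)) ^ 2) (Helper49_Pauli.sq x) := by
    have h2 : HasDerivAt (fun t : ℝ => Real.sqrt (1 + t)) (1 / (2 * Real.sqrt (1 + Helper49_Pauli.sq x))) (Helper49_Pauli.sq x) := by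
      have := (hasDerivAt_id (Helper49_Pauli.sq x)).const_add (1:ℝ)
      exact this.sqrt (one_add_sq_pos x).ne'
    exact h2.inv (Real.sqrt_pos.mpr (one_add_sq_pos x)).ne'
  have h3 := h1.comp_hasFDerivAt x hL
  refine ⟨_, h3, ?_⟩
  intro i
  simp only [smul_apply, smul_eq_mul, hL']
  simp only [X, J]
  have := (Real.sqrt_pos.mpr (one_add_sq_pos x)).ne'
  field_simp

theorem dd_J (i : Fin 3) (x : X3) : dd i (fun y => (J y : ℂ)) x = -((X i x : ℂ) * (J x : ℂ) ^ 2) := by
  obtain ⟨L, hL, hL'⟩ := hasFDerivAt_J x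
  have h : HasFDerivAt (fun y => (J y : ℂ)) (Complex.ofRealCLM.comp L) x :=
    Complex.ofRealCLM.hasFDerivAt.comp x hL
  rw [dd, h.fderiv]
  simp [hL']

theorem dd_coord (i j : Fin 3) (x : X3) : dd i (fun y => (y j : ℂ)) x = if i = j then 1 else 0 := by
  have h : HasFDerivAt (fun y : X3 => (y j : ℂ)) (Complex.ofRealCLM.comp
      (ContinuousLinearMap.proj (R := ℝ) (φ := fun _ : Fin 3 => ℝ) j)) x :=
    Complex.ofRealCLM.hasFDerivAt.comp x (hasFDerivAt_apply (𝕜 := ℝ) j x)
  rw [dd, h.fderiv]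
  simp [Pi.single_apply, eq_comm]
  split_ifs <;> simp

theorem dd_mul (i : Fin 3) {f g : X3 → ℂ} {x : X3} (hf : DifferentiableAt ℝ f x)
    (hg : DifferentiableAt ℝ g x) :
    dd i (fun y => f y * g y) x = dd i f x * g x + f x * dd i g x := by
  unfold dd
  rw [fderiv_fun_mul hf hg]
  simp [add_comm, mul_comm]

theorem dd_add (i : Fin 3) {f g : X3 → ℂ} {x : X3} (hf : DifferentiableAt ℝ f x)
    (hg : DifferentiableAt ℝ g x) :
    dd i (fun y => f y + g y) x = dd i f x + dd i g x := by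
  unfold dd
  rw [fderiv_fun_add hf hg]
  simp

theorem dd_const (i : Fin 3) (c : ℂ) (x : X3) : dd i (fun _ => c) x = 0 := by
  simp [dd]

theorem diff_J : Differentiable ℝ (fun y => (J y : ℂ)) :=
  Complex.ofRealCLM.differentiable.comp (contDiff_J.differentiable (by simp))

theorem diff_X (j : Fin 3) : Differentiable ℝ (fun y => (X j y : ℂ)) :=
  Complex.ofRealCLM.differentiable.comp ((contDiff_X j).differentiable (by simp))

theorem dd_X (i j : Fin 3) (x : X3) : dd i (fun y => (X j y : ℂ)) x =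
    ((if i = j then 1 else 0) - (X i x : ℂ) * (X j x : ℂ)) * (J x : ℂ) := by
  have h0 : (fun y => (X j y : ℂ)) = fun y : X3 => (y j : ℂ) * (J y : ℂ) := by
    ext y; simp [X]
  have h1 : DifferentiableAt ℝ (fun y : X3 => (y j : ℂ)) x :=
    (Complex.ofRealCLM.differentiable.comp
      (differentiable_apply (𝕜 := ℝ) j)) x
  rw [h0, dd_mul i h1 (diff_J x), dd_coord, dd_J]
  simp only [X]
  push_cast
  ring

/-- The algebra generated by `J` and the `X j`. -/
inductive Alg : (X3 → ℂ) → Prop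
  | J : Alg (fun x => (J x : ℂ))
  | X (j : Fin 3) : Alg (fun x => (X j x : ℂ))
  | const (c : ℂ) : Alg (fun _ => c)
  | add {f g : X3 → ℂ} : Alg f → Alg g → Alg (fun x => f x + g x)
  | mul {f g : X3 → ℂ} : Alg f → Alg g → Alg (fun x => f x * g x)

theorem Alg.contDiff {f : X3 → ℂ} (h : Alg f) : ContDiff ℝ (⊤ : ℕ∞) f := by
  induction h with
  | J => exact Complex.ofRealCLM.contDiff.comp contDiff_J
  | X j => exact Complex.ofRealCLM.contDiff.comp (contDiff_X j)
  | const c => exact contDiff_const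
  | add _ _ hf hg => exact hf.add hg
  | mul _ _ hf hg => exact hf.mul hg

theorem Alg.diff {f : X3 → ℂ} (h : Alg f) : Differentiable ℝ f :=
  h.contDiff.differentiable (by simp)

theorem Alg.bdd {f : X3 → ℂ} (h : Alg f) : ∃ C : ℝ, 0 ≤ C ∧ ∀ x, ‖f x‖ ≤ C := by
  induction h with
  | J => exact ⟨1, zero_le_one, fun x => by
      rw [Complex.norm_real, Real.norm_of_nonneg (J_pos x).le]; exact J_le_one x⟩
  | X j => exact ⟨1, zero_le_one, fun x => by
      rw [Complex.norm_real]; exact abs_X_le j x⟩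
  | const c => exact ⟨‖c‖, norm_nonneg _, fun x => le_rfl⟩
  | add _ _ hf hg =>
    obtain ⟨C, h0, hC⟩ := hf
    obtain ⟨D, h1, hD⟩ := hg
    exact ⟨C + D, by positivity, fun x => (norm_add_le _ _).trans (add_le_add (hC x) (hD x))⟩
  | mul _ _ hf hg =>
    obtain ⟨C, h0, hC⟩ := hf
    obtain ⟨D, h1, hD⟩ := hg
    exact ⟨C * D, by positivity, fun x => by
      rw [norm_mul]; exact mul_le_mul (hC x) (hD x) (norm_nonneg _) h0⟩

theorem Alg.pow {f : X3 → ℂ} (h : Alg f) (n : ℕ) : Alg (fun x => f x ^ n) := by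
  induction n with
  | zero => simpa using Alg.const 1
  | succ n ih => simpa [pow_succ] using ih.mul h

theorem Alg.sub {f g : X3 → ℂ} (hf : Alg f) (hg : Alg g) : Alg (fun x => f x - g x) := by
  have := hf.add ((Alg.const (-1)).mul hg)
  convert this using 2
  ring

theorem Alg.dd {f : X3 → ℂ} (h : Alg f) (i : Fin 3) : Alg (dd i f) := by
  induction h with
  | J =>
    have : Pool.Agent.Helper29_Pauli.dd i (fun x => (Helper29_Pauli.J x : ℂ)) =
        fun x => (-1) * (((Helper29_Pauli.X i x : ℂ)) * ((Helper29_Pauli.J x : ℂ) ^ 2)) := by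
      ext x; rw [dd_J]; ring
    rw [this]
    exact (Alg.const (-1)).mul ((Alg.X i).mul (Alg.J.pow 2))
  | X j =>
    have : Pool.Agent.Helper29_Pauli.dd i (fun x => (Helper29_Pauli.X j x : ℂ)) =
        fun x => ((if i = j then 1 else 0) - (Helper29_Pauli.X i x : ℂ) *
          (Helper29_Pauli.X j x : ℂ)) * (Helper29_Pauli.J x : ℂ) := by
      ext x; rw [dd_X]
    rw [this]
    exact ((Alg.const _).sub ((Alg.X i).mul (Alg.X j))).mul Alg.J
  | const c =>
    have : Pool.Agent.Helper29_Pauli.dd i (fun _ => c) = fun _ => 0 := by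
      ext x; rw [dd_const]
    rw [this]; exact Alg.const 0
  | add hf hg ihf ihg =>
    rename_i f g
    have : Pool.Agent.Helper29_Pauli.dd i (fun x => f x + g x) = fun x =>
        Pool.Agent.Helper29_Pauli.dd i f x + Pool.Agent.Helper29_Pauli.dd i g x := by
      ext x; rw [dd_add i (hf.diff x) (hg.diff x)]
    rw [this]; exact ihf.add ihg
  | mul hf hg ihf ihg =>
    rename_i f g
    have : Pool.Agent.Helper29_Pauli.dd i (fun x => f x * g x) = fun x =>
        Pool.Agent.Helper29_Pauli.dd i f x * g x + f x * Pool.Agent.Helper29_Pauli.dd i g x := by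
      ext x; rw [dd_mul i (hf.diff x) (hg.diff x)]
    rw [this]; exact (ihf.mul hg).add (hf.mul ihg)

end Pool.Agent.Helper29_Pauli
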