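import Pool.Agent.Helper29_Pauli.ZeroMode

/-!
# TRAP-ZERO: compactly supported approximate zero modes
-/

open MeasureTheory Complex

namespace Pool.Agent.Helper29_Pauli

open Pool.Agent.Helper49_Pauli

/-- functions `J^6 * (algebra)` -/
def Cls (h : X3 → ℂ) : Prop := ∃ g, Alg g ∧ h = fun x => (J x : ℂ) ^ 6 * g x

theorem Cls.alg {h : X3 → ℂ} (hh : Cls h) : Alg h := by
  obtain ⟨g, hg, rfl⟩ := hh
  exact (Alg.J.pow 6).mul hg

theorem Cls.bdd {h : X3 → ℂ} (hh : Cls h) : ∃ C : ℝ, 0 ≤ C ∧ ∀ x, ‖h x‖ ≤ C * J x ^ 6 := by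
  obtain ⟨g, hg, rfl⟩ := hh
  obtain ⟨C, h0, hC⟩ := hg.bdd
  refine ⟨C, h0, fun x => ?_⟩
  rw [norm_mul, norm_pow, Complex.norm_real, Real.norm_of_nonneg (J_pos x).le, mul_comm]
  exact mul_le_mul_of_nonneg_right (hC x) (pow_nonneg (J_pos x).le 6)

theorem Cls.dd {h : X3 → ℂ} (hh : Cls h) (i : Fin 3) : Cls (dd i h) := by
  obtain ⟨g, hg, rfl⟩ := hh
  refine ⟨fun x => (-6) * ((X i x : ℂ) * (J x : ℂ)) * g x + Helper29_Pauli.dd i g x,
    (((Alg.const (-6)).mul ((Alg.X i).mul Alg.J)).mul hg).add (hg.dd i), ?_⟩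
  ext x
  rw [dd_mul i (Alg.J.pow 6).diff.differentiableAt hg.diff.differentiableAt,
    dd_pow i diff_J, dd_J]
  simp only [Nat.cast_ofNat]
  ring

theorem alg_trapA (j : Fin 3) : Alg (fun x => (trapA x j : ℂ)) := by
  have hX := Alg.X
  have hJ := Alg.J
  have c := Alg.const
  match j with
  | 0 =>
    have : (fun x => (trapA x 0 : ℂ)) = fun x => (-11 : ℂ) * (((2 * (X 2 x : ℂ)) * (X 0 x : ℂ)) *
        (J x : ℂ) ^ 2 - 2 * (X 1 x : ℂ) * (J x : ℂ) ^ 3) := by
      ext x; rw [trapA_zero]; push_cast; ring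
    rw [this]
    exact (c _).mul ((((((c 2).mul (hX 2))).mul (hX 0)).mul (hJ.pow 2)).sub
      (((c 2).mul (hX 1)).mul (hJ.pow 3)))
  | 1 =>
    have : (fun x => (trapA x 1 : ℂ)) = fun x => (-11 : ℂ) * (((2 * (X 2 x : ℂ)) * (X 1 x : ℂ)) *
        (J x : ℂ) ^ 2 + 2 * (X 0 x : ℂ) * (J x : ℂ) ^ 3) := by
      ext x; rw [trapA_one]; push_cast; ring
    rw [this]
    exact (c _).mul ((((((c 2).mul (hX 2))).mul (hX 1)).mul (hJ.pow 2)).add
      (((c 2).mul (hX 0)).mul (hJ.pow 3)))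
  | 2 =>
    have : (fun x => (trapA x 2 : ℂ)) = fun x => (-11 : ℂ) * ((J x : ℂ) ^ 2 *
        (2 * (J x : ℂ) ^ 2 - 1) + 2 * (X 2 x : ℂ) ^ 2 * (J x : ℂ) ^ 2) := by
      ext x; rw [trapA_two]; push_cast; ring
    rw [this]
    exact (c _).mul (((hJ.pow 2).mul (((c 2).mul (hJ.pow 2)).sub (c 1))).add
      (((c 2).mul ((hX 2).pow 2)).mul (hJ.pow 2)))

theorem Cls.pc {h : X3 → ℂ} (hh : Cls h) (j : Fin 3) : Cls (pc trapA j h) := by
  obtain ⟨g, hg, rfl⟩ := hh
  obtain ⟨g', hg', hg2⟩ := Cls.dd ⟨g, hg, rfl⟩ j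
  refine ⟨fun x => (-I) * g' x + (trapA x j : ℂ) * g x,
    ((Alg.const (-I)).mul hg').add ((alg_trapA j).mul hg), ?_⟩
  ext x
  rw [Helper29_Pauli.pc, hg2]
  ring

theorem cls_f0 : Cls f0 := ⟨_, (Alg.Z.pow 4).mul alg_W, rfl⟩

theorem cls_f1 : Cls f1 := ⟨_, (Alg.const I).mul (Alg.Z.pow 5), rfl⟩

noncomputable def f (s : Fin 2) : X3 → ℂ := ![f0, f1] s

theorem cls_f (s : Fin 2) : Cls (f s) := by
  match s with
  | 0 => exact cls_f0
  | 1 => exact cls_f1

/-- product rule for the covariant derivative -/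
theorem pc_mul (A : X3 → X3) (j : Fin 3) {c h : X3 → ℂ} {x : X3} (hc : DifferentiableAt ℝ c x)
    (hh : DifferentiableAt ℝ h x) :
    pc A j (fun y => c y * h y) x = -I * dd j c x * h x + c x * pc A j h x := by
  simp only [pc, dd_mul j hc hh]
  ring

theorem pc_add (A : X3 → X3) (j : Fin 3) {c h : X3 → ℂ} {x : X3} (hc : DifferentiableAt ℝ c x)
    (hh : DifferentiableAt ℝ h x) :
    pc A j (fun y => c y + h y) x = pc A j c x + pc A j h x := by
  simp only [pc, dd_add j hc hh]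
  ring

/-- the base cutoff function -/
theorem exists_cutoff : ∃ b : X3 → ℂ, ContDiff ℝ (⊤ : ℕ∞) b ∧ HasCompactSupport b ∧
    (∀ x, ‖x‖ ≤ 1 → b x = 1) ∧ (∀ x, 2 ≤ ‖x‖ → b x = 0) ∧ ∀ x, ‖b x‖ ≤ 1 := by
  let β : ContDiffBump (0 : X3) := ⟨1, 2, by norm_num, by norm_num⟩
  refine ⟨fun x => ((β x : ℝ) : ℂ), Complex.ofRealCLM.contDiff.comp β.contDiff, ?_, ?_, ?_, ?_⟩
  · exact β.hasCompactSupport.comp_left (g := fun r : ℝ => (r : ℂ)) (by simp)
  · intro x hx
    simp only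
    rw [β.one_of_mem_closedBall (by simpa using hx)]
    simp
  · intro x hx
    simp only
    rw [β.zero_of_le_dist (by simpa using hx)]
    simp
  · intro x
    rw [Complex.norm_real, Real.norm_of_nonneg β.nonneg]
    exact β.le_one

theorem dd_scale {b : X3 → ℂ} (hb : Differentiable ℝ b) (t : ℝ) (j : Fin 3) (x : X3) :
    dd j (fun y => b (t • y)) x = t * dd j b (t • x) := by
  unfold dd
  have h1 : HasFDerivAt (fun y : X3 => t • y) (t • ContinuousLinearMap.id ℝ X3) x :=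
    (hasFDerivAt_id x).const_smul t
  have h2 := (hb (t • x)).hasFDerivAt.comp x h1
  have h3 : fderiv ℝ (fun y => b (t • y)) x = _ := h2.fderiv
  rw [h3]
  simp

theorem contDiff_dd {b : X3 → ℂ} (hb : ContDiff ℝ (⊤ : ℕ∞) b) (j : Fin 3) :
    ContDiff ℝ (⊤ : ℕ∞) (dd j b) := by
  unfold dd
  exact (hb.fderiv_right (m := (⊤ : ℕ∞)) (by simp)).clm_apply contDiff_const

theorem hasCompactSupport_dd {b : X3 → ℂ} (hb : HasCompactSupport b) (j : Fin 3) :
    HasCompactSupport (dd j b) := by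
  have := hb.fderiv (𝕜 := ℝ)
  unfold dd
  exact this.comp_left (g := fun L : X3 →L[ℝ] ℂ => L (Pi.single j 1)) (by simp)

theorem bdd_of_compact {b : X3 → ℂ} (hb : ContDiff ℝ (⊤ : ℕ∞) b) (hc : HasCompactSupport b) :
    ∃ C : ℝ, 0 ≤ C ∧ ∀ x, ‖b x‖ ≤ C := by
  obtain ⟨C, hC⟩ := hc.exists_bound_of_continuous hb.continuous
  exact ⟨C, (norm_nonneg _).trans (hC 0), hC⟩

/-- all the bounds on the cutoff functions -/
theorem cutoff_bounds {b : X3 → ℂ} (hb : ContDiff ℝ (⊤ : ℕ∞) b) (hc : HasCompactSupport b) :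
    ∃ C : ℝ, 0 ≤ C ∧ ∀ M : ℝ, 1 ≤ M → ∀ x, ‖b (M⁻¹ • x)‖ ≤ C ∧
      (∀ j, ‖dd j (fun y => b (M⁻¹ • y)) x‖ ≤ C / M) ∧
      (∀ l j, ‖dd l (dd j (fun y => b (M⁻¹ • y))) x‖ ≤ C) := by
  obtain ⟨C0, h0, hC0⟩ := bdd_of_compact hb hc
  have h1 : ∀ j, ∃ C : ℝ, 0 ≤ C ∧ ∀ x, ‖dd j b x‖ ≤ C := fun j =>
    bdd_of_compact (contDiff_dd hb j) (hasCompactSupport_dd hc j)
  have h2 : ∀ l j, ∃ C : ℝ, 0 ≤ C ∧ ∀ x, ‖dd l (dd j b) x‖ ≤ C := fun l j =>
    bdd_of_compact (contDiff_dd (contDiff_dd hb j) l)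
      (hasCompactSupport_dd (hasCompactSupport_dd hc j) l)
  choose C1 h1p h1 using h1
  choose C2 h2p h2 using h2
  have e1 : ∀ j, C1 j ≤ ∑ j, C1 j := fun j =>
    Finset.single_le_sum (fun i _ => h1p i) (Finset.mem_univ j)
  have e2 : ∀ l j, C2 l j ≤ ∑ l, ∑ j, C2 l j := fun l j =>
    (Finset.single_le_sum (f := C2 l) (fun i _ => h2p l i) (Finset.mem_univ j)).trans
      (Finset.single_le_sum (f := fun l => ∑ j, C2 l j)
        (fun i _ => Finset.sum_nonneg fun k _ => h2p i k) (Finset.mem_univ l))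
  have s1 : 0 ≤ ∑ j, C1 j := Finset.sum_nonneg fun j _ => h1p j
  have s2 : 0 ≤ ∑ l, ∑ j, C2 l j := Finset.sum_nonneg fun l _ => Finset.sum_nonneg fun j _ => h2p l j
  refine ⟨C0 + ∑ j, C1 j + ∑ l, ∑ j, C2 l j, by positivity, fun M hM x => ⟨?_, fun j => ?_,
    fun l j => ?_⟩⟩
  · exact (hC0 _).trans (by linarith)
  · have hM0 : 0 < M := by linarith
    rw [dd_scale (hb.differentiable (by simp)), norm_mul, Complex.norm_real,
      Real.norm_of_nonneg (inv_nonneg.mpr hM0.le), div_eq_inv_mul]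
    refine mul_le_mul_of_nonneg_left ((h1 j _).trans ?_) (inv_nonneg.mpr hM0.le)
    have := e1 j
    linarith
  · have hM0 : 0 < M := by linarith
    have hM1 : M⁻¹ ≤ 1 := inv_le_one_of_one_le₀ hM
    have e : dd j (fun y => b (M⁻¹ • y)) = fun x => ((M⁻¹ : ℝ) : ℂ) * dd j b (M⁻¹ • x) := by
      ext x; rw [dd_scale (hb.differentiable (by simp))]
    have hd : Differentiable ℝ (dd j b) := (contDiff_dd hb j).differentiable (by simp)
    have hd2 : DifferentiableAt ℝ (fun x => dd j b (M⁻¹ • x)) x :=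
      (hd.comp (differentiable_id.const_smul M⁻¹)) x
    rw [e, dd_mul l (differentiableAt_const _) hd2, dd_const, dd_scale hd, zero_mul, zero_add,
      norm_mul, norm_mul, Complex.norm_real, Real.norm_of_nonneg (inv_nonneg.mpr hM0.le)]
    have h3 := h2 l j (M⁻¹ • x)
    have h4 := norm_nonneg (dd l (dd j b) (M⁻¹ • x))
    have h5 : 0 ≤ M⁻¹ := inv_nonneg.mpr hM0.le
    have := e2 l j
    calc M⁻¹ * (M⁻¹ * ‖dd l (dd j b) (M⁻¹ • x)‖) ≤ 1 * (1 * ‖dd l (dd j b) (M⁻¹ • x)‖) := by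
          gcongr
      _ ≤ _ := by linarith

theorem norm_sq_le_sq (x : X3) : ‖x‖ ^ 2 ≤ Helper49_Pauli.sq x := by
  have h : ‖x‖ ≤ Real.sqrt (Helper49_Pauli.sq x) := by
    rw [pi_norm_le_iff_of_nonneg (Real.sqrt_nonneg _)]
    intro i
    rw [Real.norm_eq_abs, ← Real.sqrt_sq_eq_abs]
    apply Real.sqrt_le_sqrt
    exact Finset.single_le_sum (f := fun j => x j ^ 2) (fun j _ => sq_nonneg (x j))
      (Finset.mem_univ i)
  calc ‖x‖ ^ 2 ≤ Real.sqrt (Helper49_Pauli.sq x) ^ 2 := by gcongr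
    _ = _ := Real.sq_sqrt (sq_nonneg' x)

theorem integrable_J4 : Integrable (fun x : X3 => J x ^ 4) := by
  have h := integrable_rpow_neg_one_add_norm_sq (E := X3) (μ := volume) (r := 4) (by simp; norm_num)
  refine h.mono' ?_ ?_
  · exact (contDiff_J.continuous.pow 4).aestronglyMeasurable
  · refine Filter.Eventually.of_forall fun x => ?_
    rw [Real.norm_of_nonneg (pow_nonneg (J_pos x).le 4)]
    have e1 : J x ^ 4 = ((1 + Helper49_Pauli.sq x) ^ 2)⁻¹ := by
      have : J x ^ 4 = (J x ^ 2) ^ 2 := by ring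
      rw [this, J_sq, inv_pow]
    have e2 : ((1 : ℝ) + ‖x‖ ^ 2) ^ (-(4:ℝ) / 2) = ((1 + ‖x‖ ^ 2) ^ 2)⁻¹ := by
      rw [show (-(4:ℝ) / 2) = -((2 : ℕ) : ℝ) by norm_num, Real.rpow_neg (by positivity),
        Real.rpow_natCast]
    rw [e1, e2]
    have := norm_sq_le_sq x
    gcongr

theorem unif {ι : Type} [Fintype ι] (P : ι → ℝ → Prop) (hm : ∀ i C C', C ≤ C' → P i C → P i C')
    (h : ∀ i, ∃ C, 0 ≤ C ∧ P i C) : ∃ C, 0 ≤ C ∧ ∀ i, P i C := by
  choose C h0 h using h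
  exact ⟨∑ i, C i, Finset.sum_nonneg fun i _ => h0 i, fun i => hm i _ _
    (Finset.single_le_sum (fun i _ => h0 i) (Finset.mem_univ i)) (h i)⟩

theorem f_bounds : ∃ K : ℝ, 0 ≤ K ∧ (∀ s x, ‖f s x‖ ≤ K * J x ^ 6) ∧
    (∀ j s x, ‖pc trapA j (f s) x‖ ≤ K * J x ^ 6) ∧
    (∀ l j s x, ‖pc trapA l (pc trapA j (f s)) x‖ ≤ K * J x ^ 6) := by
  have mono : ∀ (h : X3 → ℂ) (C C' : ℝ), C ≤ C' → (∀ x, ‖h x‖ ≤ C * J x ^ 6) →
      (∀ x, ‖h x‖ ≤ C' * J x ^ 6) := fun h C C' hC hx x =>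
    (hx x).trans (mul_le_mul_of_nonneg_right hC (pow_nonneg (J_pos x).le 6))
  obtain ⟨C0, h0, hC0⟩ := unif (fun (s : Fin 2) C => ∀ x, ‖f s x‖ ≤ C * J x ^ 6)
    (fun s => mono _) (fun s => (cls_f s).bdd)
  obtain ⟨C1, h1, hC1⟩ := unif (fun (s : Fin 3 × Fin 2) C => ∀ x, ‖pc trapA s.1 (f s.2) x‖ ≤ C * J x ^ 6)
    (fun s => mono _) (fun s => ((cls_f s.2).pc s.1).bdd)
  obtain ⟨C2, h2, hC2⟩ := unif (fun (s : Fin 3 × Fin 3 × Fin 2) C =>
    ∀ x, ‖pc trapA s.1 (pc trapA s.2.1 (f s.2.2)) x‖ ≤ C * J x ^ 6)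
    (fun s => mono _) (fun s => (((cls_f s.2.2).pc s.2.1).pc s.1).bdd)
  refine ⟨C0 + C1 + C2, by positivity, fun s => mono _ _ _ (by linarith) (hC0 s), fun j s =>
    mono _ _ _ (by linarith) (hC1 (j, s)), fun l j s => mono _ _ _ (by linarith) (hC2 (l, j, s))⟩

/-- the trial functions -/
noncomputable def trial (b : X3 → ℂ) (M : ℝ) (x : X3) (s : Fin 2) : ℂ := b (M⁻¹ • x) * f s x

section
variable {b : X3 → ℂ} (hb : ContDiff ℝ (⊤ : ℕ∞) b) (hc : HasCompactSupport b)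
include hb

theorem contDiff_scale (t : ℝ) : ContDiff ℝ (⊤ : ℕ∞) (fun x => b (t • x)) :=
  hb.comp (contDiff_const_smul t)

theorem contDiff_trial (M : ℝ) (s : Fin 2) : ContDiff ℝ (⊤ : ℕ∞) fun x => trial b M x s :=
  (contDiff_scale hb _).mul (cls_f s).alg.contDiff

include hc

omit hb in
theorem compact_scale {t : ℝ} (ht : t ≠ 0) : HasCompactSupport (fun x => b (t • x)) :=
  hc.comp_homeomorph (Homeomorph.smulOfNeZero t ht)

omit hb in
theorem compact_trial {M : ℝ} (hM : 0 < M) (s : Fin 2) :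
    HasCompactSupport fun x => trial b M x s :=
  (compact_scale hc (inv_ne_zero hM.ne')).mul_right

theorem trial_bounds : ∃ B : ℝ, 0 ≤ B ∧ ∀ M : ℝ, 1 ≤ M → ∀ x,
    (∀ s, ‖trial b M x s‖ ≤ B * J x ^ 6) ∧
    (∀ j s, ‖cov trapA j (trial b M) x s‖ ≤ B * J x ^ 6) ∧
    (∀ l j s, ‖cov trapA l (cov trapA j (trial b M)) x s‖ ≤ B * J x ^ 6) ∧
    (∀ s, ‖pauliDot (fun j => cov trapA j (trial b M) x) s‖ ≤ B / M * J x ^ 6) := by
  obtain ⟨C, hC0, hC⟩ := cutoff_bounds hb hc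
  obtain ⟨K, hK0, hK1, hK2, hK3⟩ := f_bounds
  refine ⟨4 * (C * K), by positivity, fun M hM x => ?_⟩
  have hM0 : 0 < M := by linarith
  obtain ⟨h1, h2, h3⟩ := hC M hM x
  have hJ6 : 0 ≤ J x ^ 6 := pow_nonneg (J_pos x).le 6
  have hCM : C / M ≤ C := div_le_self hC0 hM
  have hCM0 : 0 ≤ C / M := div_nonneg hC0 hM0.le
  have hCK : 0 ≤ C * K := mul_nonneg hC0 hK0
  set χ : X3 → ℂ := fun y => b (M⁻¹ • y) with hχ
  have hχs : ContDiff ℝ (⊤ : ℕ∞) χ := contDiff_scale hb _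
  have dχ : Differentiable ℝ χ := hχs.differentiable (by simp)
  have ddχ : ∀ j, Differentiable ℝ (dd j χ) := fun j =>
    (contDiff_dd hχs j).differentiable (by simp)
  have hf : ∀ s, Differentiable ℝ (f s) := fun s => (cls_f s).alg.diff
  have hpf : ∀ j s, Differentiable ℝ (pc trapA j (f s)) := fun j s => ((cls_f s).pc j).alg.diff
  have e1 : ∀ j s y, cov trapA j (trial b M) y s = -I * dd j χ y * f s y + χ y * pc trapA j (f s) y := by
    intro j s y
    rw [cov_eq]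
    exact pc_mul trapA j (dχ y) (hf s y)
  have prod : ∀ {u v : ℂ} {p q : ℝ}, ‖u‖ ≤ p → ‖v‖ ≤ q * J x ^ 6 → 0 ≤ p → ‖u * v‖ ≤ p * q * J x ^ 6 := by
    intro u v p q hu hv hp
    rw [norm_mul, mul_assoc]
    exact mul_le_mul hu hv (norm_nonneg _) hp
  have nI : ∀ {u : ℂ} {p : ℝ}, ‖u‖ ≤ p → ‖-I * u‖ ≤ p := by
    intro u p hu; rw [norm_mul, norm_neg, norm_I, one_mul]; exact hu
  refine ⟨fun s => ?_, fun j s => ?_, fun l j s => ?_, fun s => ?_⟩
  · refine (prod h1 (hK1 s x) hC0).trans ?_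
    exact mul_le_mul_of_nonneg_right (by linarith) hJ6
  · rw [e1]
    have a1 := prod (nI (h2 j)) (hK1 s x) hCM0
    have a2 := prod h1 (hK2 j s x) hC0
    have a3 : C / M * K * J x ^ 6 ≤ C * K * J x ^ 6 := by gcongr
    refine (norm_add_le _ _).trans ?_
    have : 0 ≤ C * K * J x ^ 6 := by positivity
    linarith
  · rw [cov_cov_eq]
    have e2 : pc trapA j (fun y => trial b M y s) =
        fun y => (-I * dd j χ y) * f s y + χ y * pc trapA j (f s) y := by
      ext y; rw [← cov_eq, e1]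
    have e3 := pc_add trapA l (c := fun y => -I * dd j χ y * f s y)
      (h := fun y => χ y * pc trapA j (f s) y) (x := x)
      ((((ddχ j).const_mul (-I)).mul (hf s)) x) ((dχ.mul (hpf j s)) x)
    have e4 := pc_mul trapA l (c := fun y => -I * dd j χ y) (h := f s) (x := x)
      (((ddχ j).const_mul (-I)) x) (hf s x)
    have e5 := pc_mul trapA l (dχ x) (hpf j s x)
    have e6 := dd_mul l (f := fun _ => -I) (differentiableAt_const (-I)) (ddχ j x)
    rw [e2, e3, e4, e5, e6, dd_const, zero_mul, zero_add]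
    have a1 := prod (nI (nI (h3 l j))) (hK1 s x) hC0
    have a2 := prod (nI (h2 j)) (hK2 l s x) hCM0
    have a3 := prod (nI (h2 l)) (hK2 j s x) hCM0
    have a4 := prod h1 (hK3 l j s x) hC0
    have a5 : C / M * K * J x ^ 6 ≤ C * K * J x ^ 6 := by gcongr
    refine (norm_add_le _ _).trans ((add_le_add (norm_add_le _ _) (norm_add_le _ _)).trans ?_)
    linarith
  · have a1 : ∀ j s, ‖-I * dd j χ x * f s x‖ ≤ C / M * K * J x ^ 6 := fun j s =>
      prod (nI (h2 j)) (hK1 s x) hCM0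
    have a2 : 4 * (C * K) / M * J x ^ 6 = 4 * (C / M * K * J x ^ 6) := by ring
    have a3 : 0 ≤ C / M * K * J x ^ 6 := by positivity
    rw [a2]
    match s with
    | 0 =>
      have : pauliDot (fun j => cov trapA j (trial b M) x) 0 =
          (-I * dd 0 χ x * f 1 x) + -I * (-I * dd 1 χ x * f 1 x) + (-I * dd 2 χ x * f 0 x) := by
        simp only [pauliDot, e1, Matrix.cons_val_zero, smul_eq_mul]
        have := zeroMode0 x
        simp only [f, Matrix.cons_val_zero, Matrix.cons_val_one]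
        linear_combination (χ x) * this
      rw [this]
      refine (norm_add_le _ _).trans ((add_le_add_left (norm_add_le _ _) _).trans ?_)
      have b1 := a1 0 1
      have b2 := nI (a1 1 1)
      have b3 := a1 2 0
      linarith
    | 1 =>
      have : pauliDot (fun j => cov trapA j (trial b M) x) 1 =
          (-I * dd 0 χ x * f 0 x) + -I * (-1 * (-I * dd 1 χ x * f 0 x)) +
            -1 * (-I * dd 2 χ x * f 1 x) := by
        simp only [pauliDot, e1, Matrix.cons_val_one, smul_eq_mul]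
        have := zeroMode1 x
        simp only [f, Matrix.cons_val_zero, Matrix.cons_val_one]
        linear_combination (χ x) * this
      rw [this]
      refine (norm_add_le _ _).trans ((add_le_add_left (norm_add_le _ _) _).trans ?_)
      have b1 := a1 0 0
      have b2 : ‖-I * (-1 * (-I * dd 1 χ x * f 0 x))‖ ≤ C / M * K * J x ^ 6 := by
        apply nI
        rw [norm_mul]
        simpa using a1 1 0
      have b3 : ‖-1 * (-I * dd 2 χ x * f 1 x)‖ ≤ C / M * K * J x ^ 6 := by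
        rw [norm_mul]
        simpa using a1 2 1
      linarith

end

theorem weight_four (x : X3) : (1 + Helper49_Pauli.sq x) ^ 4 * J x ^ 12 = J x ^ 4 := by
  have h := J_sq_mul x
  calc (1 + Helper49_Pauli.sq x) ^ 4 * J x ^ 12 = (J x ^ 2 * (1 + Helper49_Pauli.sq x)) ^ 4 * J x ^ 4 := by
        ring
    _ = J x ^ 4 := by rw [h]; ring

theorem weight_two (x : X3) : (1 + Helper49_Pauli.sq x) ^ 2 * J x ^ 12 ≤ J x ^ 4 := by
  have h := J_sq_mul x
  calc (1 + Helper49_Pauli.sq x) ^ 2 * J x ^ 12 = (J x ^ 2 * (1 + Helper49_Pauli.sq x)) ^ 2 * J x ^ 8 := by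
        ring
    _ = J x ^ 4 * J x ^ 4 := by rw [h]; ring
    _ ≤ J x ^ 4 * 1 := by
        have := pow_le_one₀ (J_pos x).le (J_le_one x) (n := 4)
        have h0 := pow_nonneg (J_pos x).le 4
        gcongr
    _ = _ := mul_one _

/-- TRAP-ZERO -/
theorem trapZero : TrapZeroStatement := by
  obtain ⟨b0, hb0, hc0, hone, hzero, hle⟩ := exists_cutoff
  -- the normalisation
  set w : X3 → ℝ := fun x => ‖b0 ((2 : ℝ) • x)‖ ^ 2 * ∑ s, ‖f s x‖ ^ 2 with hw
  have hfc : ∀ s, Continuous (f s) := fun s => (cls_f s).alg.contDiff.continuous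
  have hwc : Continuous w :=
    ((hb0.continuous.comp (continuous_const_smul (2 : ℝ))).norm.pow 2).mul
      (continuous_finsetSum _ fun s _ => (hfc s).norm.pow 2)
  have hws : HasCompactSupport w := by
    have h1 : HasCompactSupport (fun x : X3 => b0 ((2 : ℝ) • x)) :=
      compact_scale hc0 (two_ne_zero)
    have h2 : HasCompactSupport (fun x : X3 => ‖b0 ((2 : ℝ) • x)‖ ^ 2) :=
      h1.comp_left (g := fun z : ℂ => ‖z‖ ^ 2) (by simp)
    exact h2.mul_right
  have hw0 : 0 ≤ w := fun x => by positivity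
  have hwpos : 0 < ∫ x, w x := by
    refine hwc.integral_pos_of_hasCompactSupport_nonneg_nonzero hws hw0
      (x := Pi.single 0 (1 / 2 : ℝ)) ?_
    have n1 : ‖(2 : ℝ) • (Pi.single 0 (1 / 2 : ℝ) : X3)‖ ≤ 1 := by
      rw [norm_smul, Pi.norm_single]; norm_num
    have n2 : f 1 (Pi.single 0 (1 / 2 : ℝ)) ≠ 0 := by
      have hJ := J_pos (Pi.single 0 (1 / 2 : ℝ))
      have : f 1 (Pi.single 0 (1 / 2 : ℝ)) = f1 (Pi.single 0 (1 / 2 : ℝ)) := rfl
      rw [this]
      simp only [f1, Z, X]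
      simp at hJ
      simp [hJ.ne']
    have n3 : 0 < ∑ s, ‖f s (Pi.single 0 (1 / 2 : ℝ))‖ ^ 2 := by
      rw [Fin.sum_univ_two]
      have := norm_pos_iff.mpr n2
      positivity
    simp only [hw]
    rw [hone _ n1]
    simp only [norm_one, one_pow, one_mul]
    exact n3.ne'
  set c : ℝ := (Real.sqrt (∫ x, w x))⁻¹ with hcdef
  have hcpos : 0 < c := inv_pos.mpr (Real.sqrt_pos.mpr hwpos)
  have hcsq : c ^ 2 * ∫ x, w x = 1 := by
    rw [hcdef, inv_pow, Real.sq_sqrt hwpos.le, inv_mul_cancel₀ hwpos.ne']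
  set b : X3 → ℂ := fun x => (c : ℂ) * b0 x with hbdef
  have hb : ContDiff ℝ (⊤ : ℕ∞) b := contDiff_const.mul hb0
  have hc : HasCompactSupport b := hc0.mul_left
  obtain ⟨B, hB0, hB⟩ := trial_bounds hb hc
  set K := ∫ x : X3, J x ^ 4 with hK
  have hK0 : 0 ≤ K := integral_nonneg fun x => pow_nonneg (J_pos x).le 4
  refine ⟨26 * B ^ 2 * K + 1, by positivity, fun e he => ?_⟩
  set M : ℝ := max 1 (2 * B ^ 2 * K / e) with hMdef
  have hM1 : 1 ≤ M := le_max_left _ _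
  have hM0 : 0 < M := by linarith
  refine ⟨trial b M, contDiff_trial hb M, compact_trial hc hM0, ?_, ?_, ?_⟩
  · -- lower bound
    rw [← hcsq, ← integral_const_mul]
    refine integral_mono ((hwc.integrable_of_hasCompactSupport hws).const_mul _) ?_ ?_
    · refine Continuous.integrable_of_hasCompactSupport ?_ ?_
      · exact continuous_finsetSum _ fun s _ => (contDiff_trial hb M s).continuous.norm.pow 2
      · have : ∀ s, HasCompactSupport fun x => ‖trial b M x s‖ ^ 2 := fun s =>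
          (compact_trial hc hM0 s).comp_left (g := fun z : ℂ => ‖z‖ ^ 2) (by simp)
        have h2 : (fun x => ∑ s, ‖trial b M x s‖ ^ 2) =
            (fun x => ‖trial b M x 0‖ ^ 2) + fun x => ‖trial b M x 1‖ ^ 2 := by
          ext x; simp [Fin.sum_univ_two]
        rw [h2]
        exact (this 0).add (this 1)
    · intro x
      simp only [hw, trial, hbdef, norm_mul, mul_pow, Complex.norm_real,
        Real.norm_of_nonneg hcpos.le]
      rw [← Finset.mul_sum, mul_assoc]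
      refine mul_le_mul_of_nonneg_left (mul_le_mul_of_nonneg_right ?_
        (Finset.sum_nonneg fun s _ => sq_nonneg _)) (sq_nonneg c)
      rcases le_or_gt ‖x‖ 1 with h | h
      · rw [hone (M⁻¹ • x)]
        · have := hle ((2 : ℝ) • x)
          have h0 := norm_nonneg (b0 ((2 : ℝ) • x))
          rw [norm_one, one_pow]
          exact pow_le_one₀ h0 this
        · rw [norm_smul, Real.norm_of_nonneg (inv_nonneg.mpr hM0.le)]
          have : M⁻¹ ≤ 1 := inv_le_one_of_one_le₀ hM1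
          exact mul_le_one₀ this (norm_nonneg _) h
      · rw [hzero ((2 : ℝ) • x)]
        · simp
        · rw [norm_smul]; norm_num; linarith
  · -- upper bound
    have key : ∫ x, (1 + Helper49_Pauli.sq x) ^ 4 * ((∑ s, ‖trial b M x s‖ ^ 2) +
        (∑ j, ∑ s, ‖cov trapA j (trial b M) x s‖ ^ 2) +
        ∑ l, ∑ j, ∑ s, ‖cov trapA l (cov trapA j (trial b M)) x s‖ ^ 2) ≤
        ∫ x : X3, 26 * B ^ 2 * J x ^ 4 := by
      refine integral_mono_of_nonneg (Filter.Eventually.of_forall fun x => ?_)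
        (integrable_J4.const_mul _) (Filter.Eventually.of_forall fun x => ?_)
      · have := one_add_sq_pos x
        simp only [Pi.zero_apply]
        positivity
      · obtain ⟨h1, h2, h3, -⟩ := hB M hM1 x
        have sqle : ∀ {u : ℂ}, ‖u‖ ≤ B * J x ^ 6 → ‖u‖ ^ 2 ≤ B ^ 2 * J x ^ 12 := by
          intro u hu
          calc ‖u‖ ^ 2 ≤ (B * J x ^ 6) ^ 2 := by gcongr
            _ = _ := by ring
        have s1 : ∑ s, ‖trial b M x s‖ ^ 2 ≤ 2 * (B ^ 2 * J x ^ 12) := by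
          calc _ ≤ ∑ s : Fin 2, B ^ 2 * J x ^ 12 := Finset.sum_le_sum fun s _ => sqle (h1 s)
            _ = _ := by simp
        have s2 : ∑ j, ∑ s, ‖cov trapA j (trial b M) x s‖ ^ 2 ≤ 6 * (B ^ 2 * J x ^ 12) := by
          calc _ ≤ ∑ j : Fin 3, ∑ s : Fin 2, B ^ 2 * J x ^ 12 :=
                Finset.sum_le_sum fun j _ => Finset.sum_le_sum fun s _ => sqle (h2 j s)
            _ = _ := by simp; ring
        have s3 : ∑ l, ∑ j, ∑ s, ‖cov trapA l (cov trapA j (trial b M)) x s‖ ^ 2 ≤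
            18 * (B ^ 2 * J x ^ 12) := by
          calc _ ≤ ∑ l : Fin 3, ∑ j : Fin 3, ∑ s : Fin 2, B ^ 2 * J x ^ 12 :=
                Finset.sum_le_sum fun l _ => Finset.sum_le_sum fun j _ =>
                  Finset.sum_le_sum fun s _ => sqle (h3 l j s)
            _ = _ := by simp; ring
        have hpos : 0 ≤ (1 + Helper49_Pauli.sq x) ^ 4 := by
          have := one_add_sq_pos x
          positivity
        calc _ ≤ (1 + Helper49_Pauli.sq x) ^ 4 * (26 * (B ^ 2 * J x ^ 12)) :=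
              mul_le_mul_of_nonneg_left (by linarith) hpos
          _ = 26 * B ^ 2 * ((1 + Helper49_Pauli.sq x) ^ 4 * J x ^ 12) := by ring
          _ = _ := by rw [weight_four]
    rw [integral_const_mul] at key
    linarith
  · have key : ∫ x, (1 + Helper49_Pauli.sq x) ^ 2 *
        ∑ s, ‖pauliDot (fun j => cov trapA j (trial b M) x) s‖ ^ 2 ≤
        ∫ x : X3, 2 * (B / M) ^ 2 * J x ^ 4 := by
      refine integral_mono_of_nonneg (Filter.Eventually.of_forall fun x => ?_)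
        (integrable_J4.const_mul _) (Filter.Eventually.of_forall fun x => ?_)
      · have := one_add_sq_pos x
        simp only [Pi.zero_apply]
        positivity
      · obtain ⟨-, -, -, h4⟩ := hB M hM1 x
        have s1 : ∑ s, ‖pauliDot (fun j => cov trapA j (trial b M) x) s‖ ^ 2 ≤
            2 * ((B / M) ^ 2 * J x ^ 12) := by
          calc _ ≤ ∑ s : Fin 2, (B / M) ^ 2 * J x ^ 12 := Finset.sum_le_sum fun s _ => by
                calc _ ≤ (B / M * J x ^ 6) ^ 2 := by gcongr; exact h4 s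
                  _ = _ := by ring
            _ = _ := by simp
        have hpos : 0 ≤ (1 + Helper49_Pauli.sq x) ^ 2 := sq_nonneg _
        calc _ ≤ (1 + Helper49_Pauli.sq x) ^ 2 * (2 * ((B / M) ^ 2 * J x ^ 12)) :=
              mul_le_mul_of_nonneg_left s1 hpos
          _ = 2 * (B / M) ^ 2 * ((1 + Helper49_Pauli.sq x) ^ 2 * J x ^ 12) := by ring
          _ ≤ 2 * (B / M) ^ 2 * J x ^ 4 :=
              mul_le_mul_of_nonneg_left (weight_two x) (by positivity)
    rw [integral_const_mul] at key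
    refine key.trans ?_
    have hM2 : 2 * B ^ 2 * K / e ≤ M := le_max_right _ _
    rw [div_le_iff₀ he] at hM2
    rw [div_pow, show 2 * (B ^ 2 / M ^ 2) * K = (2 * B ^ 2 * K) / M ^ 2 by ring,
      div_le_iff₀ (by positivity)]
    nlinarith [mul_le_mul_of_nonneg_left hM1 (mul_nonneg hM0.le he.le)]

end Pool.Agent.Helper29_Pauli
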