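import Pool.Agent.Helper29_Pauli.Alg

/-!
# The exact zero mode of `sigma . (p + trapA)`
-/

open MeasureTheory Complex

namespace Pool.Agent.Helper29_Pauli

open Pool.Agent.Helper49_Pauli

/-- one component of the covariant derivative -/
noncomputable def pc (A : X3 → X3) (j : Fin 3) (f : X3 → ℂ) (x : X3) : ℂ :=
  -I * dd j f x + (A x j : ℂ) * f x

theorem cov_eq (A : X3 → X3) (j : Fin 3) (phi : X3 → Fin 2 → ℂ) (x : X3) (s : Fin 2) :
    cov A j phi x s = pc A j (fun y => phi y s) x := rfl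

theorem cov_cov_eq (A : X3 → X3) (l j : Fin 3) (phi : X3 → Fin 2 → ℂ) (x : X3) (s : Fin 2) :
    cov A l (cov A j phi) x s = pc A l (pc A j (fun y => phi y s)) x := rfl

theorem dd_pow (i : Fin 3) {f : X3 → ℂ} (hf : Differentiable ℝ f) (n : ℕ) (x : X3) :
    dd i (fun y => f y ^ n) x = n * f x ^ (n - 1) * dd i f x := by
  induction n with
  | zero => simp [dd_const]
  | succ n ih =>
    have h1 : (fun y => f y ^ (n + 1)) = fun y => f y ^ n * f y := by ext y; rw [pow_succ]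
    rw [h1, dd_mul (f := fun y => f y ^ n) i ((hf.pow n) x) (hf x), ih]
    rcases n with _ | n
    · simp
    · simp only [Nat.add_sub_cancel, Nat.cast_add, Nat.cast_one, pow_succ]
      ring

theorem trapA_zero (x : X3) : trapA x 0 = -11 * (2 * X 2 x * X 0 x * J x ^ 2 -
    2 * X 1 x * J x ^ 3) := by
  simp [trapA, ← J_sq, X]
  ring

theorem trapA_one (x : X3) : trapA x 1 = -11 * (2 * X 2 x * X 1 x * J x ^ 2 +
    2 * X 0 x * J x ^ 3) := by
  simp [trapA, ← J_sq, X]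
  ring

theorem trapA_two (x : X3) : trapA x 2 = -11 * (J x ^ 2 * (2 * J x ^ 2 - 1) +
    2 * X 2 x ^ 2 * J x ^ 2) := by
  have h := J_sq_mul x
  simp [trapA, ← J_sq, X]
  linear_combination (-11 * J x ^ 2) * h

noncomputable def Z (x : X3) : ℂ := (X 0 x : ℂ) + I * (X 1 x : ℂ)

noncomputable def f0 (x : X3) : ℂ := (J x : ℂ) ^ 6 * (Z x ^ 4 * ((J x : ℂ) + I * (X 2 x : ℂ)))

noncomputable def f1 (x : X3) : ℂ := (J x : ℂ) ^ 6 * (I * Z x ^ 5)

theorem Alg.Z : Alg Z := (Alg.X 0).add ((Alg.const I).mul (Alg.X 1))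

theorem alg_W : Alg (fun x => (J x : ℂ) + I * (X 2 x : ℂ)) := Alg.J.add ((Alg.const I).mul (Alg.X 2))

/-- `ζ = (1, i, 0)` -/
noncomputable def zet : Fin 3 → ℂ := ![1, I, 0]

theorem dd_Z (i : Fin 3) (x : X3) : dd i Z x = (zet i - X i x * Z x) * J x := by
  have : dd i Z x = dd i (fun y => (X 0 y : ℂ) + I * (X 1 y : ℂ)) x := rfl
  rw [this, dd_add i (diff_X 0 x) ((Alg.const I).mul (Alg.X 1)).diff.differentiableAt,
    dd_mul i (differentiableAt_const I) (diff_X 1 x), dd_const, dd_X, dd_X]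
  simp only [Z]
  fin_cases i <;> simp [zet] <;> ring

theorem dd_W (i : Fin 3) (x : X3) : dd i (fun y => (J y : ℂ) + I * (X 2 y : ℂ)) x =
    -(X i x * J x * (J x + I * X 2 x)) + (if i = 2 then I else 0) * J x := by
  rw [dd_add i (diff_J x) ((Alg.const I).mul (Alg.X 2)).diff.differentiableAt,
    dd_mul i (differentiableAt_const I) (diff_X 2 x), dd_const, dd_X, dd_J]
  split_ifs <;> ring

theorem dd_f0 (i : Fin 3) (x : X3) : dd i f0 x = (J x : ℂ) ^ 7 * Z x ^ 3 *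
    (-11 * X i x * Z x * (J x + I * X 2 x) + 4 * zet i * (J x + I * X 2 x) +
      (if i = 2 then I else 0) * Z x) := by
  have : dd i f0 x = dd i (fun x => (J x : ℂ) ^ 6 * (Z x ^ 4 * ((J x : ℂ) + I * (X 2 x : ℂ)))) x := rfl
  rw [this, dd_mul i (Alg.J.pow 6).diff.differentiableAt
    ((Alg.Z.pow 4).mul alg_W).diff.differentiableAt, dd_mul i (Alg.Z.pow 4).diff.differentiableAt
    alg_W.diff.differentiableAt, dd_pow i diff_J, dd_pow i Alg.Z.diff, dd_W, dd_Z, dd_J]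
  simp only [Nat.cast_ofNat]
  ring

theorem dd_f1 (i : Fin 3) (x : X3) : dd i f1 x = I * (J x : ℂ) ^ 7 * Z x ^ 4 *
    (-11 * X i x * Z x + 5 * zet i) := by
  have : dd i f1 x = dd i (fun x => (J x : ℂ) ^ 6 * (I * Z x ^ 5)) x := rfl
  rw [this, dd_mul i (Alg.J.pow 6).diff.differentiableAt
    ((Alg.const I).mul (Alg.Z.pow 5)).diff.differentiableAt,
    dd_mul i (differentiableAt_const I) (Alg.Z.pow 5).diff.differentiableAt,
    dd_pow i diff_J, dd_pow i Alg.Z.diff, dd_Z, dd_J, dd_const]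
  simp only [Nat.cast_ofNat]
  ring

theorem zeroMode0 (x : X3) : pc trapA 0 f1 x - I * pc trapA 1 f1 x + pc trapA 2 f0 x = 0 := by
  have hQ : (J x : ℂ) ^ 2 + (X 0 x : ℂ) ^ 2 + (X 1 x : ℂ) ^ 2 + (X 2 x : ℂ) ^ 2 = 1 := by
    exact_mod_cast congrArg (fun r : ℝ => (r : ℂ)) (JX_id x)
  have hZ : Z x = (X 0 x : ℂ) + I * (X 1 x : ℂ) := rfl
  simp only [pc, dd_f0, dd_f1, trapA_zero, trapA_one, trapA_two, f0, f1, zet]
  push_cast
  generalize (J x : ℂ) = j at *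
  generalize (X 0 x : ℂ) = a at *
  generalize (X 1 x : ℂ) = b at *
  generalize (X 2 x : ℂ) = c at *
  generalize Z x = z at *
  have hI : I ^ 2 = -1 := I_sq
  have ha : a = z - I * b := by rw [hZ]; ring
  subst ha
  linear_combination (-11 * j ^ 7 * z ^ 4 - 22 * j ^ 8 * z ^ 4 * (j + I * c)) * hQ +
    ((-11 * j ^ 7 * z ^ 4) + (5 * j ^ 7 * z ^ 4 * I ^ 2) + (11 * j ^ 7 * z ^ 4 * c ^ 2) + (11 * j ^ 7 * z ^ 4 * b ^ 2) + (-22 * j ^ 7 * z ^ 5 * b * I) + (11 * j ^ 7 * z ^ 6) + (22 * j ^ 8 * z ^ 4 * b ^ 2 * c * I) + (22 * j ^ 9 * z ^ 4 * b ^ 2) + (-22 * j ^ 9 * z ^ 5 * b * I) + (22 * j ^ 9 * z ^ 6)) * hI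

theorem zeroMode1 (x : X3) : pc trapA 0 f0 x + I * pc trapA 1 f0 x - pc trapA 2 f1 x = 0 := by
  have hQ : (J x : ℂ) ^ 2 + (X 0 x : ℂ) ^ 2 + (X 1 x : ℂ) ^ 2 + (X 2 x : ℂ) ^ 2 = 1 := by
    exact_mod_cast congrArg (fun r : ℝ => (r : ℂ)) (JX_id x)
  have hZ : Z x = (X 0 x : ℂ) + I * (X 1 x : ℂ) := rfl
  simp only [pc, dd_f0, dd_f1, trapA_zero, trapA_one, trapA_two, f0, f1, zet]
  push_cast
  generalize (J x : ℂ) = j at *
  generalize (X 0 x : ℂ) = a at *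
  generalize (X 1 x : ℂ) = b at *
  generalize (X 2 x : ℂ) = c at *
  generalize Z x = z at *
  have hI : I ^ 2 = -1 := I_sq
  have ha : a = z - I * b := by rw [hZ]; ring
  subst ha
  linear_combination ((-4 * j ^ 7 * z ^ 3 * c * I ^ 2) + (-4 * j ^ 8 * z ^ 3 * I) + (22 * j ^ 9 * z ^ 4 * b * c * I) + (-22 * j ^ 9 * z ^ 5 * c) + (22 * j ^ 10 * z ^ 4 * b)) * hI

end Pool.Agent.Helper29_Pauli
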